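import Pool.Agent.Lib.MP_f82811_pr.HT.Wt
import Pool.Agent.Lib.MP_f82811_pr.HT.Tanh

/-!
# Linear functions: supermodular functions and the FKG inequality
-/

set_option autoImplicit false

namespace Pool.Agent.Lib.MP_f82811_pr.LF

open Finset HT

variable {V : Type*} [Fintype V] [DecidableEq V]

/-- Supermodular functions of two real variables. -/
def SM (F : ℝ → ℝ → ℝ) : Prop :=
  ∀ x x' y y' : ℝ, x ≤ x' → y ≤ y' → F x y' + F x' y ≤ F x y + F x' y'

theorem sm_mul : SM fun x y => x * y := by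
  intro x x' y y' hx hy
  have := mul_nonneg (sub_nonneg.2 hx) (sub_nonneg.2 hy)
  simp only
  nlinarith

/-- Two inner points against two outer points. -/
theorem conv_four {φ : ℝ → ℝ} {s : Set ℝ} (hφ : ConvexOn ℝ s φ) {c11 c12 c21 c22 m11 m12 m21 m22 : ℝ}
    (h11 : m11 ∈ s) (h22 : m22 ∈ s) (hc12 : 0 ≤ c12) (hc21 : 0 ≤ c21)
    (ha : m11 ≤ m12) (hb : m12 ≤ m22) (hc : m11 ≤ m21) (hd : m21 ≤ m22)
    (hsum : c12 + c21 = c11 + c22) (hmom : c12 * m12 + c21 * m21 = c11 * m11 + c22 * m22) :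
    c12 * φ m12 + c21 * φ m21 ≤ c11 * φ m11 + c22 * φ m22 := by
  by_cases h : m11 = m22
  · have e1 : m12 = m22 := le_antisymm hb (h ▸ ha)
    have e2 : m21 = m22 := le_antisymm hd (h ▸ hc)
    rw [e1, e2, h, ← add_mul, ← add_mul, hsum]
  · have hlt : m11 < m22 := lt_of_le_of_ne (ha.trans hb) h
    have hδ : 0 < m22 - m11 := sub_pos.2 hlt
    have key : ∀ m, m11 ≤ m → m ≤ m22 →
        (m22 - m11) * φ m ≤ (m22 - m) * φ m11 + (m - m11) * φ m22 := by
      intro m h1 h2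
      have hab : (m22 - m) / (m22 - m11) + (m - m11) / (m22 - m11) = 1 := by
        rw [← add_div, show m22 - m + (m - m11) = m22 - m11 by ring]
        exact div_self hδ.ne'
      have hconv := hφ.2 h11 h22 (div_nonneg (sub_nonneg.2 h2) hδ.le)
        (div_nonneg (sub_nonneg.2 h1) hδ.le) hab
      have e : ((m22 - m) / (m22 - m11)) • m11 + ((m - m11) / (m22 - m11)) • m22 = m := by
        rw [smul_eq_mul, smul_eq_mul]
        field_simp
        ring
      rw [e, smul_eq_mul, smul_eq_mul] at hconv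
      have h3 := mul_le_mul_of_nonneg_left hconv hδ.le
      have e2 : (m22 - m11) * ((m22 - m) / (m22 - m11) * φ m11 + (m - m11) / (m22 - m11) * φ m22) =
          (m22 - m) * φ m11 + (m - m11) * φ m22 := by
        field_simp
      rw [e2] at h3
      exact h3
    have k1 := mul_le_mul_of_nonneg_left (key m12 ha hb) hc12
    have k2 := mul_le_mul_of_nonneg_left (key m21 hc hd) hc21
    have e3 : c12 * ((m22 - m12) * φ m11 + (m12 - m11) * φ m22) +
        c21 * ((m22 - m21) * φ m11 + (m21 - m11) * φ m22) =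
        (m22 - m11) * (c11 * φ m11 + c22 * φ m22) := by
      have f1 : c12 * (m22 - m12) + c21 * (m22 - m21) = c11 * (m22 - m11) := by
        linear_combination m22 * hsum - hmom
      have f2 : c12 * (m12 - m11) + c21 * (m21 - m11) = c22 * (m22 - m11) := by
        linear_combination hmom - m11 * hsum
      linear_combination φ m11 * f1 + φ m22 * f2
    have k3 : (m22 - m11) * (c12 * φ m12 + c21 * φ m21) ≤
        (m22 - m11) * (c11 * φ m11 + c22 * φ m22) := by
      rw [← e3]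
      linarith
    exact le_of_mul_le_mul_left k3 hδ

/-- The basic function of two real variables. -/
noncomputable def FF (φ : ℝ → ℝ) (x y : ℝ) : ℝ :=
  Real.cosh (x + y) * Real.cosh (x - y) * φ (Real.tanh (x + y))

theorem tanh_mem (x : ℝ) : Real.tanh x ∈ Set.Icc (-1 : ℝ) 1 :=
  ⟨(Real.neg_one_lt_tanh x).le, (Real.tanh_lt_one x).le⟩

theorem cosh_mul_cosh (x y : ℝ) : Real.cosh (x + y) * Real.cosh (x - y) =
    (Real.cosh (2 * x) + Real.cosh (2 * y)) / 2 := by
  rw [Real.cosh_add, Real.cosh_sub, Real.cosh_two_mul, Real.cosh_two_mul]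
  have h1 := Real.cosh_sq x
  have h2 := Real.cosh_sq y
  nlinarith

theorem sinh_mul_cosh (x y : ℝ) : Real.sinh (x + y) * Real.cosh (x - y) =
    (Real.sinh (2 * x) + Real.sinh (2 * y)) / 2 := by
  rw [Real.sinh_add, Real.cosh_sub, Real.sinh_two_mul, Real.sinh_two_mul]
  have h1 := Real.cosh_sq x
  have h2 := Real.cosh_sq y
  linear_combination (Real.sinh x * Real.cosh x) * h2 + (Real.sinh y * Real.cosh y) * h1

theorem sm_FF {φ : ℝ → ℝ} (hφ : ConvexOn ℝ (Set.Icc (-1) 1) φ) : SM (FF φ) := by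
  intro x x' y y' hx hy
  unfold FF
  have hm : ∀ a b : ℝ, Real.cosh (a + b) * Real.cosh (a - b) * Real.tanh (a + b) =
      (Real.sinh (2 * a) + Real.sinh (2 * b)) / 2 := by
    intro a b
    rw [← sinh_mul_cosh, Real.tanh_eq_sinh_div_cosh]
    have := (Real.cosh_pos (a + b)).ne'
    field_simp
  refine conv_four hφ (tanh_mem _) (tanh_mem _) ?_ ?_ (tanh_mono (by linarith))
    (tanh_mono (by linarith)) (tanh_mono (by linarith)) (tanh_mono (by linarith)) ?_ ?_
  · exact mul_nonneg (Real.cosh_pos _).le (Real.cosh_pos _).le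
  · exact mul_nonneg (Real.cosh_pos _).le (Real.cosh_pos _).le
  · rw [cosh_mul_cosh, cosh_mul_cosh, cosh_mul_cosh, cosh_mul_cosh]
    ring
  · rw [hm, hm, hm, hm]
    ring

/-- The FKG inequality with one centred function. -/
theorem fkg_pos {w : (V → Bool) → ℝ} (hw : ∀ σ, 0 < w σ)
    (hfkg : ∀ σ τ, w σ * w τ ≤ w (σ ⊓ τ) * w (σ ⊔ τ)) {p D : (V → Bool) → ℝ}
    (hp : Monotone p) (hD : Monotone D) (h0 : ∑ σ, w σ * p σ = 0) :
    0 ≤ ∑ σ, w σ * (p σ * D σ) := by
  refine fkg_ip hw hfkg hp hD ?_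
  rw [← h0]
  unfold ip
  exact Finset.sum_congr rfl fun σ _ => by ring

/-- The FKG inequality for a product and a supermodular function. -/
theorem two_fkg {w1 w2 : (V → Bool) → ℝ} (h1 : ∀ σ, 0 < w1 σ)
    (hf1 : ∀ σ τ, w1 σ * w1 τ ≤ w1 (σ ⊓ τ) * w1 (σ ⊔ τ)) (h2 : ∀ σ, 0 < w2 σ)
    (hf2 : ∀ σ τ, w2 σ * w2 τ ≤ w2 (σ ⊓ τ) * w2 (σ ⊔ τ)) {F : ℝ → ℝ → ℝ} (hF : SM F)
    {p q X Y : (V → Bool) → ℝ} (hp : Monotone p) (hq : Monotone q) (hX : Monotone X)
    (hY : Monotone Y) (hp0 : ∑ σ, w1 σ * p σ = 0) (hq0 : ∑ σ, w2 σ * q σ = 0) :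
    0 ≤ ∑ σ, ∑ τ, w1 σ * w2 τ * (p σ * q τ * F (X σ) (Y τ)) := by
  have hg : Monotone fun τ => ∑ σ, w1 σ * (p σ * F (X σ) (Y τ)) := by
    intro τ τ' hτ
    rw [← sub_nonneg]
    simp only
    rw [← Finset.sum_sub_distrib]
    have := fkg_pos h1 hf1 (D := fun σ => F (X σ) (Y τ') - F (X σ) (Y τ)) hp (by
      intro σ σ' hσ
      have := hF (X σ) (X σ') (Y τ) (Y τ') (hX hσ) (hY hτ)
      simp only
      linarith) hp0
    refine le_of_le_of_eq this ?_
    exact Finset.sum_congr rfl fun σ _ => by ring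
  have h := fkg_pos h2 hf2 hq hg hq0
  refine le_of_le_of_eq h ?_
  rw [Finset.sum_comm]
  refine Finset.sum_congr rfl fun τ _ => ?_
  rw [Finset.mul_sum, Finset.mul_sum]
  exact Finset.sum_congr rfl fun σ _ => by ring

omit [Fintype V] [DecidableEq V] in
theorem sp_monotone (v : V) : Monotone (sp v) := by
  intro σ τ h
  have h1 := h v
  unfold sp
  revert h1
  cases σ v <;> cases τ v <;> simp [spin]

theorem sum_odd {A : V → V → ℝ} {f : (V → Bool) → ℝ} (hf : Odd' f) : ∑ σ, W A σ * f σ = 0 := by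
  have h := ip_odd_even (w := W A) (fun σ => W_neg σ) hf (g := fun _ => 1) (fun _ => rfl)
  rw [← h]
  unfold ip
  exact Finset.sum_congr rfl fun σ _ => by ring

theorem sum_sp (A : V → V → ℝ) (v : V) : ∑ σ, W A σ * sp v σ = 0 :=
  sum_odd (A := A) fun σ => sp_neg v σ

end Pool.Agent.Lib.MP_f82811_pr.LF
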