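import Pool.Agent.Lib.MP_f82811_pr.Ising

/-!
# Linear functions: definitions
-/

set_option autoImplicit false

namespace Pool.Agent.Lib.MP_f82811_pr

open Finset

variable {V : Type*} [Fintype V] [DecidableEq V]

/-- The expectation of `f` under the probability vector `π`. -/
def expect (π f : (V → Bool) → ℝ) : ℝ := ∑ σ, π σ * f σ

/-- The conditional expectation of the spin at `v` given the spins at the other vertices. -/
noncomputable def condMean (π : (V → Bool) → ℝ) (v : V) (σ : V → Bool) : ℝ :=
  (π (Function.update σ v true) - π (Function.update σ v false)) /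
    (π (Function.update σ v true) + π (Function.update σ v false))

/-- The linear function `∑ a_v σ_v`. -/
def lin (a : V → ℝ) (σ : V → Bool) : ℝ := ∑ v, a v * spin (σ v)

/-- The infimum of the Rayleigh quotients of the linear functions. -/
noncomputable def linGap (π : (V → Bool) → ℝ) : ℝ :=
  sInf {r : ℝ | ∃ a : V → ℝ, 0 < variance π (lin a) ∧
    r = dirichlet π (lin a) / variance π (lin a)}

end Pool.Agent.Lib.MP_f82811_pr
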