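import Pool.Agent.Lib.MP_f82811_pr.LF.Base

/-!
# Linear functions: duplicate variables

A pair of configurations `σ, σ'` is described by `σ` and the set `β` of vertices where they agree.
Given `β` the couplings between `β` and its complement disappear and the others are doubled.
-/

set_option autoImplicit false

namespace Pool.Agent.Lib.MP_f82811_pr.LF

open Finset HT

variable {V : Type*} [Fintype V] [DecidableEq V]

/-- The configuration which agrees with `σ` exactly on `β`. -/
def tw (β σ : V → Bool) : V → Bool := fun i => σ i == β i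

/-- The configuration `σ` on `β` and `τ` outside. -/
def mix (β σ τ : V → Bool) : V → Bool := fun i => if β i then σ i else τ i

omit [Fintype V] [DecidableEq V] in
theorem sp_tw (β σ : V → Bool) (i : V) : sp i (tw β σ) = sp i σ * sp i β := by
  unfold sp tw
  cases σ i <;> cases β i <;> simp [spin]

omit [Fintype V] [DecidableEq V] in
theorem sp_mix (β σ τ : V → Bool) (i : V) :
    sp i (mix β σ τ) = if β i then sp i σ else sp i τ := by
  unfold sp mix
  cases β i <;> simp

omit [Fintype V] [DecidableEq V] in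
theorem sp_true {β : V → Bool} {i : V} (h : β i = true) : sp i β = 1 := by
  unfold sp
  rw [h]
  simp [spin]

omit [Fintype V] [DecidableEq V] in
theorem sp_false {β : V → Bool} {i : V} (h : β i = false) : sp i β = -1 := by
  unfold sp
  rw [h]
  simp [spin]

omit [Fintype V] [DecidableEq V] in
theorem tw_tw (β σ : V → Bool) : tw (tw β σ) σ = β := by
  funext i
  unfold tw
  cases σ i <;> cases β i <;> rfl

omit [DecidableEq V] in
theorem sum_tw [DecidableEq V] (σ : V → Bool) (G : (V → Bool) → ℝ) :
    ∑ β : V → Bool, G (tw β σ) = ∑ τ, G τ :=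
  Function.Bijective.sum_comp (Function.Involutive.bijective (f := fun β => tw β σ)
    fun β => tw_tw β σ) G

/-- The couplings of the first copy, given the agreement set. -/
def tB (B : V → V → ℝ) (β : V → Bool) (u v : V) : ℝ := B u v * (1 + sp u β * sp v β)

/-- The doubled couplings inside `β`. -/
def pB (B : V → V → ℝ) (β : V → Bool) (u v : V) : ℝ := if β u ∧ β v then 2 * B u v else 0

omit [Fintype V] [DecidableEq V] in
theorem coup_pB {B : V → V → ℝ} (hB : Coup B) (β : V → Bool) : Coup (pB B β) where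
  symm u v := by
    unfold pB
    rw [hB.symm u v]
    simp only [and_comm]
  nonneg u v := by
    unfold pB
    split_ifs
    · exact mul_nonneg zero_le_two (hB.nonneg u v)
    · exact le_rfl
  diag v := by
    unfold pB
    rw [hB.diag]
    simp

omit [DecidableEq V] in
theorem en_tw (B : V → V → ℝ) (β σ : V → Bool) : en B σ + en B (tw β σ) = en (tB B β) σ := by
  unfold en tB
  rw [← add_div]
  congr 1
  rw [← Finset.sum_add_distrib]
  refine Finset.sum_congr rfl fun u _ => ?_
  rw [← Finset.sum_add_distrib]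
  refine Finset.sum_congr rfl fun v _ => ?_
  rw [sp_tw, sp_tw]
  ring

omit [DecidableEq V] in
theorem W_tw (B : V → V → ℝ) (β σ : V → Bool) : W B σ * W B (tw β σ) = W (tB B β) σ := by
  unfold W
  rw [← Real.exp_add, en_tw]

omit [DecidableEq V] in
theorem en_mix (B : V → V → ℝ) (β σ τ : V → Bool) :
    en (tB B β) (mix β σ τ) = en (pB B β) σ + en (pB B (neg β)) τ := by
  unfold en tB
  rw [← add_div]
  congr 1
  rw [← Finset.sum_add_distrib]
  refine Finset.sum_congr rfl fun u _ => ?_
  rw [← Finset.sum_add_distrib]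
  refine Finset.sum_congr rfl fun v _ => ?_
  rw [sp_mix, sp_mix]
  unfold pB neg
  cases hu : β u <;> cases hv : β v <;> simp [sp, hu, hv, spin] <;> ring_nf

omit [DecidableEq V] in
theorem W_mix (B : V → V → ℝ) (β σ τ : V → Bool) :
    W (tB B β) (mix β σ τ) = W (pB B β) σ * W (pB B (neg β)) τ := by
  unfold W
  rw [← Real.exp_add, en_mix]

/-- The sum over pairs of configurations. -/
theorem dup_nonneg (B : V → V → ℝ) (G : (V → Bool) → (V → Bool) → ℝ)
    (h : ∀ β : V → Bool, 0 ≤ ∑ σ, W (tB B β) σ * G σ (tw β σ)) :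
    0 ≤ ∑ σ, ∑ σ', W B σ * W B σ' * G σ σ' := by
  have h1 : ∀ σ : V → Bool, ∑ σ', W B σ * W B σ' * G σ σ' =
      ∑ β, W (tB B β) σ * G σ (tw β σ) := by
    intro σ
    rw [← sum_tw σ (fun σ' => W B σ * W B σ' * G σ σ')]
    refine Finset.sum_congr rfl fun β _ => ?_
    rw [W_tw]
  rw [Finset.sum_congr rfl fun σ _ => h1 σ, Finset.sum_comm]
  exact Finset.sum_nonneg fun β _ => h β

omit [DecidableEq V] in
theorem sum_mix [DecidableEq V] (β : V → Bool) (H : (V → Bool) → ℝ) :
    ∑ σ, ∑ τ, H (mix β σ τ) = (Fintype.card (V → Bool) : ℝ) * ∑ ρ, H ρ := by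
  have h1 : ∑ σ : V → Bool, ∑ τ : V → Bool, H (mix β σ τ) =
      ∑ x : (V → Bool) × (V → Bool), H (mix β x.1 x.2) := by
    rw [Fintype.sum_prod_type]
  have hinv : Function.Involutive
      (fun x : (V → Bool) × (V → Bool) => (mix β x.1 x.2, mix β x.2 x.1)) := by
    rintro ⟨σ, τ⟩
    ext i
    · simp only [mix]
      cases β i <;> simp
    · simp only [mix]
      cases β i <;> simp
  have h2 : ∑ x : (V → Bool) × (V → Bool), H (mix β x.1 x.2) =
      ∑ x : (V → Bool) × (V → Bool), H x.1 :=
    Function.Bijective.sum_comp hinv.bijective (fun x : (V → Bool) × (V → Bool) => H x.1)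
  rw [h1, h2, Fintype.sum_prod_type]
  simp only
  rw [Finset.mul_sum]
  refine Finset.sum_congr rfl fun σ _ => ?_
  rw [Finset.sum_const, nsmul_eq_mul]
  rfl

/-- Given the agreement set the configuration splits in two independent parts. -/
theorem mix_nonneg (B : V → V → ℝ) (β : V → Bool) (H : (V → Bool) → ℝ)
    (h : 0 ≤ ∑ σ, ∑ τ, W (pB B β) σ * W (pB B (neg β)) τ * H (mix β σ τ)) :
    0 ≤ ∑ σ, W (tB B β) σ * H σ := by
  have h1 := sum_mix β (fun ρ => W (tB B β) ρ * H ρ)
  have h2 : ∑ σ, ∑ τ, W (pB B β) σ * W (pB B (neg β)) τ * H (mix β σ τ) =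
      (Fintype.card (V → Bool) : ℝ) * ∑ ρ, W (tB B β) ρ * H ρ := by
    rw [← h1]
    refine Finset.sum_congr rfl fun σ _ => Finset.sum_congr rfl fun τ _ => ?_
    rw [W_mix]
  rw [h2] at h
  have hc : (0 : ℝ) < Fintype.card (V → Bool) := by exact_mod_cast Fintype.card_pos
  exact nonneg_of_mul_nonneg_right h hc

/-- The part of the local field which comes from `β`. -/
noncomputable def Xf (A : V → V → ℝ) (v : V) (β σ : V → Bool) : ℝ :=
  ∑ u, if β u then A v u * sp u σ else 0

omit [DecidableEq V] in
theorem Xf_mono {A : V → V → ℝ} (hA : Coup A) (v : V) (β : V → Bool) : Monotone (Xf A v β) := by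
  intro σ τ h
  refine Finset.sum_le_sum fun u _ => ?_
  split_ifs
  · exact mul_le_mul_of_nonneg_left (sp_monotone u h) (hA.nonneg v u)
  · exact le_rfl

omit [DecidableEq V] in
theorem Xf_mix (A : V → V → ℝ) (v : V) (β σ τ : V → Bool) :
    Xf A v β (mix β σ τ) = Xf A v β σ := by
  refine Finset.sum_congr rfl fun u _ => ?_
  rw [sp_mix]
  cases β u <;> simp

omit [DecidableEq V] in
theorem Xf_neg_mix (A : V → V → ℝ) (v : V) (β σ τ : V → Bool) :
    Xf A v (neg β) (mix β σ τ) = Xf A v (neg β) τ := by
  refine Finset.sum_congr rfl fun u _ => ?_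
  rw [sp_mix]
  unfold neg
  cases β u <;> simp

omit [DecidableEq V] in
theorem fld_eq (A : V → V → ℝ) (v : V) (β σ : V → Bool) :
    fld A v σ = Xf A v β σ + Xf A v (neg β) σ := by
  unfold fld Xf
  rw [← Finset.sum_add_distrib]
  refine Finset.sum_congr rfl fun u _ => ?_
  unfold neg
  cases β u <;> simp

omit [DecidableEq V] in
theorem fld_tw (A : V → V → ℝ) (v : V) (β σ : V → Bool) :
    fld A v (tw β σ) = Xf A v β σ - Xf A v (neg β) σ := by
  unfold fld Xf
  rw [← Finset.sum_sub_distrib]
  refine Finset.sum_congr rfl fun u _ => ?_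
  rw [sp_tw]
  unfold neg
  cases h : β u <;> simp [sp, h, spin]

end Pool.Agent.Lib.MP_f82811_pr.LF
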