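import Pool.Agent.Lib.MP_f82811_pr.LF.Mono
import Pool.Agent.Lib.MP_f82811_pr.LF.Defs
import Pool.Agent.Lib.MP_f82811_pr.HT.Graph

/-!
# Linear functions: the Dirichlet form, the variance, and all couplings of a graph
-/

set_option autoImplicit false

namespace Pool.Agent.Lib.MP_f82811_pr.LF

open Finset HT

variable {V : Type*} [Fintype V] [DecidableEq V]

theorem condMean_eq {A : V → V → ℝ} (hA : Coup A) (v : V) (σ : V → Bool) :
    condMean (normalize (W A)) v σ = tau A v σ := by
  have hZ : 0 < ∑ σ, W A σ := sum_pos' (W_pos A)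
  have h := local_tanh hA v σ
  have h1 : 0 < W A (Function.update σ v true) + W A (Function.update σ v false) :=
    add_pos (W_pos _ _) (W_pos _ _)
  unfold condMean normalize
  rw [← sub_div, ← add_div, div_div_div_cancel_right₀ hZ.ne', div_eq_iff h1.ne', h]

theorem expect_eq {A : V → V → ℝ} (hA : Coup A) (v : V) (φ : ℝ → ℝ) :
    expect (normalize (W A)) (fun σ => φ (condMean (normalize (W A)) v σ)) = RR A v φ := by
  unfold expect RR
  rw [Finset.sum_div]
  refine Finset.sum_congr rfl fun σ _ => ?_
  show normalize (W A) σ * φ (condMean (normalize (W A)) v σ) = _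
  rw [condMean_eq hA]
  unfold normalize
  ring

/-- The Dirichlet form of a linear function. -/
theorem dirichlet_lin {A : V → V → ℝ} (hA : Coup A) (a : V → ℝ) :
    dirichlet (normalize (W A)) (lin a) =
      (1 / (Fintype.card V : ℝ)) * ∑ v, a v ^ 2 * (1 - RR A v (fun x => x ^ 2)) := by
  have hZ : 0 < ∑ σ, W A σ := sum_pos' (W_pos A)
  rw [dirichlet_eq (W_pos A)]
  have h1 : dir (W A) (lin a) = ∑ v, 2 * (a v ^ 2 * ∑ σ, W A σ * (1 - tau A v σ ^ 2)) := by
    unfold dir
    rw [Finset.sum_comm]
    refine Finset.sum_congr rfl fun v _ => ?_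
    have h2 : ∀ σ : V → Bool, lin a σ - lin a (flip v σ) = 2 * (a v * sp v σ) := by
      intro σ
      unfold lin
      rw [← Finset.sum_sub_distrib, Finset.sum_eq_single v]
      · have : spin (flip v σ v) = -spin (σ v) := sp_flip_self v σ
        rw [this]
        unfold sp
        ring
      · intro u _ hu
        have : spin (flip v σ u) = spin (σ u) := sp_update_ne hu σ _
        rw [this]
        ring
      · intro h
        exact absurd (Finset.mem_univ v) h
    have h3 : ∀ σ : V → Bool, W A σ * W A (flip v σ) / (W A σ + W A (flip v σ)) *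
        (lin a σ - lin a (flip v σ)) ^ 2 =
        a v ^ 2 * (W A σ * (1 - tau A v σ ^ 2) + W A (flip v σ) * (1 - tau A v (flip v σ) ^ 2)) := by
      intro σ
      have hsq : sp v σ ^ 2 = 1 := by
        rcases sp_cases v σ with h | h <;> rw [h] <;> norm_num
      have hpos : W A σ + W A (flip v σ) ≠ 0 := (add_pos (W_pos _ _) (W_pos _ _)).ne'
      have ht : W A σ - W A (flip v σ) = sp v σ * tau A v σ * (W A σ + W A (flip v σ)) := by
        have h := local_tanh hA v σ
        by_cases hb : σ v = true
        · have e1 : Function.update σ v true = σ := by rw [← hb, Function.update_eq_self]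
          have e2 : Function.update σ v false = flip v σ := by
            unfold flip
            rw [hb]
            rfl
          rw [e1, e2] at h
          have e3 : sp v σ = 1 := sp_true hb
          rw [e3, h]
          ring
        · have hb' : σ v = false := by simpa using hb
          have e1 : Function.update σ v false = σ := by rw [← hb', Function.update_eq_self]
          have e2 : Function.update σ v true = flip v σ := by
            unfold flip
            rw [hb']
            rfl
          rw [e1, e2] at h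
          have e3 : sp v σ = -1 := sp_false hb'
          rw [e3]
          linarith
      have ht2 : (W A σ - W A (flip v σ)) ^ 2 = tau A v σ ^ 2 * (W A σ + W A (flip v σ)) ^ 2 := by
        rw [ht]
        calc (sp v σ * tau A v σ * (W A σ + W A (flip v σ))) ^ 2 =
            sp v σ ^ 2 * (tau A v σ ^ 2 * (W A σ + W A (flip v σ)) ^ 2) := by ring
          _ = _ := by rw [hsq, one_mul]
      rw [h2, tau_flip hA, div_mul_eq_mul_div, div_eq_iff hpos]
      have e4 : (2 * (a v * sp v σ)) ^ 2 = 4 * a v ^ 2 * sp v σ ^ 2 := by ring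
      rw [e4, hsq]
      linear_combination (-(a v ^ 2)) * ht2
    rw [Finset.sum_congr rfl fun σ _ => h3 σ, ← Finset.mul_sum, Finset.sum_add_distrib,
      sum_flip v (fun σ => W A σ * (1 - tau A v σ ^ 2))]
    ring
  have h4 : ∀ v, ∑ σ, W A σ * (1 - tau A v σ ^ 2) =
      (1 - RR A v (fun x => x ^ 2)) * ∑ σ, W A σ := by
    intro v
    unfold RR
    rw [sub_mul, div_mul_cancel₀ _ hZ.ne', one_mul, ← Finset.sum_sub_distrib]
    exact Finset.sum_congr rfl fun σ _ => by ring
  rw [h1]
  have h5 : ∑ v, 2 * (a v ^ 2 * ∑ σ, W A σ * (1 - tau A v σ ^ 2)) =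
      2 * ((∑ v, a v ^ 2 * (1 - RR A v (fun x => x ^ 2))) * ∑ σ, W A σ) := by
    rw [Finset.sum_mul, Finset.mul_sum]
    refine Finset.sum_congr rfl fun v _ => ?_
    rw [h4]
    ring
  rw [h5, ← mul_assoc, mul_div_assoc, div_self hZ.ne', mul_one]
  by_cases hn : (Fintype.card V : ℝ) = 0
  · rw [hn]
    simp
  · field_simp

theorem mean_lin (A : V → V → ℝ) (a : V → ℝ) :
    ∑ τ, normalize (W A) τ * lin a τ = 0 := by
  have h : ∑ τ, W A τ * lin a τ = 0 := by
    apply sum_odd (A := A)
    intro σ
    unfold lin
    rw [← Finset.sum_neg_distrib]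
    refine Finset.sum_congr rfl fun v _ => ?_
    have : spin (neg σ v) = -spin (σ v) := sp_neg v σ
    rw [this]
    ring
  have h2 : ∑ τ, normalize (W A) τ * lin a τ = (∑ τ, W A τ * lin a τ) / ∑ τ, W A τ := by
    unfold normalize
    rw [Finset.sum_div]
    exact Finset.sum_congr rfl fun τ _ => by ring
  rw [h2, h, zero_div]

/-- The variance of a linear function. -/
theorem variance_lin (A : V → V → ℝ) (a : V → ℝ) :
    variance (normalize (W A)) (lin a) = ∑ u, ∑ w, a u * a w * corr A u w := by
  unfold variance
  rw [mean_lin]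
  have h1 : ∀ σ : V → Bool, normalize (W A) σ * (lin a σ - 0) ^ 2 =
      ∑ u, ∑ w, a u * a w * (W A σ * (sp u σ * sp w σ)) / ∑ τ, W A τ := by
    intro σ
    have e : (lin a σ - 0) ^ 2 = ∑ u, ∑ w, (a u * spin (σ u)) * (a w * spin (σ w)) := by
      rw [sub_zero, sq]
      unfold lin
      rw [Finset.sum_mul_sum]
    rw [e]
    unfold normalize
    rw [Finset.mul_sum]
    refine Finset.sum_congr rfl fun u _ => ?_
    rw [Finset.mul_sum]
    refine Finset.sum_congr rfl fun w _ => ?_
    unfold sp
    ring
  rw [Finset.sum_congr rfl fun σ _ => h1 σ, Finset.sum_comm]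
  refine Finset.sum_congr rfl fun u _ => ?_
  rw [Finset.sum_comm]
  refine Finset.sum_congr rfl fun w _ => ?_
  unfold corr
  rw [← mul_div_assoc, Finset.mul_sum, Finset.sum_div]

theorem corr_nonneg {A : V → V → ℝ} (hA : Coup A) (u w : V) : 0 ≤ corr A u w := by
  unfold corr
  refine div_nonneg ?_ (sum_pos' (W_pos A)).le
  exact fkg_pos (W_pos A) (W_fkg hA) (sp_monotone u) (sp_monotone w) (sum_sp A u)

theorem RR_sq_le_one (A : V → V → ℝ) (v : V) : RR A v (fun x => x ^ 2) ≤ 1 := by
  unfold RR
  rw [div_le_one (sum_pos' (W_pos A))]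
  refine Finset.sum_le_sum fun σ _ => ?_
  have h := (tanh_sq_lt_one (fld A v σ)).le
  have h2 := mul_le_mul_of_nonneg_left h (W_pos A σ).le
  rw [mul_one] at h2
  exact h2

omit [Fintype V] in
/-- Changing the coupling of one edge. -/
theorem mat_update (G : SimpleGraph V) [DecidableRel G.Adj] (J : Sym2 V → ℝ) {i j : V}
    (hadj : G.Adj i j) (y : ℝ) :
    mat G (Function.update J s(i, j) y) = addP (mat G J) i j (y - J s(i, j)) := by
  funext u w
  unfold mat addP pairMat
  by_cases h : (u = i ∧ w = j) ∨ (u = j ∧ w = i)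
  · have he : s(u, w) = s(i, j) := by
      rcases h with ⟨h1, h2⟩ | ⟨h1, h2⟩
      · rw [h1, h2]
      · rw [h1, h2, Sym2.eq_swap]
    have ha : G.Adj u w := by
      rcases h with ⟨h1, h2⟩ | ⟨h1, h2⟩
      · rw [h1, h2]; exact hadj
      · rw [h1, h2]; exact hadj.symm
    simp only [if_pos ha, if_pos h, he, Function.update_self]
    ring
  · have he : s(u, w) ≠ s(i, j) := by
      intro hc
      rw [Sym2.eq_iff] at hc
      exact h hc
    rw [if_neg h, Function.update_of_ne he]
    ring

/-- Monotonicity in one coupling gives monotonicity in all couplings. -/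
theorem all_edges (G : SimpleGraph V) [DecidableRel G.Adj] (Q : (V → V → ℝ) → ℝ)
    (hQ : ∀ A : V → V → ℝ, Coup A → ∀ j l : V, j ≠ l → ∀ s : ℝ, 0 ≤ s → Q A ≤ Q (addP A j l s))
    {J J' : Sym2 V → ℝ} (hJ : ∀ e ∈ G.edgeSet, 0 ≤ J e) (hJJ' : ∀ e ∈ G.edgeSet, J e ≤ J' e) :
    Q (mat G J) ≤ Q (mat G J') := by
  have main : ∀ s : Finset (Sym2 V), s ⊆ G.edgeFinset →
      Q (mat G J) ≤ Q (mat G (fun e => if e ∈ s then J' e else J e)) := by
    intro s
    induction s using Finset.induction with
    | empty =>
      intro _
      simp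
    | insert e s hes ih =>
      intro hsub
      have he : e ∈ G.edgeSet := SimpleGraph.mem_edgeFinset.1 (hsub (Finset.mem_insert_self _ _))
      have hs : s ⊆ G.edgeFinset := fun x hx => hsub (Finset.mem_insert_of_mem hx)
      refine le_trans (ih hs) ?_
      have e1 : (fun e' => if e' ∈ insert e s then J' e' else J e') =
          Function.update (fun e' => if e' ∈ s then J' e' else J e') e (J' e) := by
        funext e'
        by_cases h : e' = e
        · subst h
          simp
        · rw [Function.update_of_ne h]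
          simp [Finset.mem_insert, h]
      rw [e1]
      have hge : ∀ e ∈ G.edgeSet, 0 ≤ (fun e' => if e' ∈ s then J' e' else J e') e := by
        intro e he
        simp only
        split_ifs
        · exact (hJ e he).trans (hJJ' e he)
        · exact hJ e he
      revert he hes
      induction e with
      | h i j =>
        intro hes he
        have hadj : G.Adj i j := he
        rw [mat_update G _ hadj]
        refine hQ _ (coup_mat G hge) i j hadj.ne _ ?_
        simp only [if_neg hes]
        exact sub_nonneg.2 (hJJ' _ he)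
  have h1 := main G.edgeFinset (Finset.Subset.refl _)
  have h2 : mat G (fun e => if e ∈ G.edgeFinset then J' e else J e) = mat G J' := by
    funext u w
    unfold mat
    by_cases h : G.Adj u w
    · have : s(u, w) ∈ G.edgeFinset := SimpleGraph.mem_edgeFinset.2 h
      simp only [if_pos h, if_pos this]
    · simp only [if_neg h]
  rwa [h2] at h1

end Pool.Agent.Lib.MP_f82811_pr.LF
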