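import Pool.Agent.Lib.MP_f82811_pr.LF.Dup

/-!
# Linear functions: the three correlation inequalities
-/

set_option autoImplicit false

namespace Pool.Agent.Lib.MP_f82811_pr.LF

open Finset HT

variable {V : Type*} [Fintype V] [DecidableEq V]

omit [DecidableEq V] in
theorem sum_two [DecidableEq V] (w1 w2 a b : (V → Bool) → ℝ) :
    ∑ σ, ∑ τ, w1 σ * w2 τ * (a σ * b τ) = (∑ σ, w1 σ * a σ) * ∑ τ, w2 τ * b τ := by
  rw [Finset.sum_mul_sum]
  exact Finset.sum_congr rfl fun σ _ => Finset.sum_congr rfl fun τ _ => by ring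

/-- Two vertices in different parts. -/
theorem split_case {A B : V → V → ℝ} (hA : Coup A) (hB : Coup B) (v : V) {j l : V} {β : V → Bool}
    (hj : β j = true) (hl : β l = false) {F : ℝ → ℝ → ℝ} (hF : SM F) :
    0 ≤ ∑ σ, W (tB B β) σ * (sp j σ * sp l σ * F (Xf A v β σ) (Xf A v (neg β) σ)) := by
  apply mix_nonneg
  have h := two_fkg (W_pos (pB B β)) (W_fkg (coup_pB hB β)) (W_pos (pB B (neg β)))
    (W_fkg (coup_pB hB (neg β))) hF (sp_monotone j) (sp_monotone l) (Xf_mono hA v β)
    (Xf_mono hA v (neg β)) (sum_sp _ j) (sum_sp _ l)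
  refine le_of_le_of_eq h ?_
  refine Finset.sum_congr rfl fun σ _ => Finset.sum_congr rfl fun τ _ => ?_
  rw [Xf_mix, Xf_neg_mix, sp_mix, sp_mix, hj, hl]
  simp

/-- Two vertices different from `v`. -/
theorem ineq_pair {A B : V → V → ℝ} (hA : Coup A) (hB : Coup B) (v j l : V) {φ : ℝ → ℝ}
    (hφ : ConvexOn ℝ (Set.Icc (-1) 1) φ) :
    0 ≤ ∑ σ, ∑ σ', W B σ * W B σ' * ((sp j σ * sp l σ - sp j σ' * sp l σ') *
      (φ (Real.tanh (fld A v σ)) * Real.cosh (fld A v σ) * Real.cosh (fld A v σ'))) := by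
  apply dup_nonneg B (fun σ σ' => (sp j σ * sp l σ - sp j σ' * sp l σ') *
    (φ (Real.tanh (fld A v σ)) * Real.cosh (fld A v σ) * Real.cosh (fld A v σ')))
  intro β
  have h1 : ∀ σ : V → Bool, (sp j σ * sp l σ - sp j (tw β σ) * sp l (tw β σ)) *
      (φ (Real.tanh (fld A v σ)) * Real.cosh (fld A v σ) * Real.cosh (fld A v (tw β σ))) =
      (1 - sp j β * sp l β) *
        (sp j σ * sp l σ * FF φ (Xf A v β σ) (Xf A v (neg β) σ)) := by
    intro σ
    rw [sp_tw, sp_tw, fld_tw, fld_eq A v β σ]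
    unfold FF
    ring
  have h2 : ∑ σ, W (tB B β) σ * ((sp j σ * sp l σ - sp j (tw β σ) * sp l (tw β σ)) *
      (φ (Real.tanh (fld A v σ)) * Real.cosh (fld A v σ) * Real.cosh (fld A v (tw β σ)))) =
      (1 - sp j β * sp l β) * ∑ σ, W (tB B β) σ *
        (sp j σ * sp l σ * FF φ (Xf A v β σ) (Xf A v (neg β) σ)) := by
    rw [Finset.mul_sum]
    refine Finset.sum_congr rfl fun σ _ => ?_
    rw [h1]
    ring
  rw [h2]
  cases hj : β j with
  | true =>
    cases hl : β l with
    | true =>
      rw [sp_true hj, sp_true hl]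
      simp
    | false =>
      rw [sp_true hj, sp_false hl]
      exact mul_nonneg (by norm_num) (split_case hA hB v hj hl (sm_FF hφ))
  | false =>
    cases hl : β l with
    | true =>
      rw [sp_false hj, sp_true hl]
      refine mul_nonneg (by norm_num) ?_
      refine le_of_le_of_eq (split_case hA hB v hl hj (sm_FF hφ)) ?_
      refine Finset.sum_congr rfl fun σ _ => ?_
      ring
    | false =>
      rw [sp_false hj, sp_false hl]
      simp

/-- The case of different parts in the second Griffiths inequality for two pairs. -/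
theorem gks_case {B : V → V → ℝ} (hB : Coup B) {u w : V} (j l : V) {β : V → Bool}
    (hu : β u = true) (hw : β w = false) :
    0 ≤ ∑ σ, W (tB B β) σ * (sp u σ * sp w σ * (sp j σ * sp l σ)) := by
  apply mix_nonneg
  have key : ∀ a b : (V → Bool) → ℝ, (∀ σ τ : V → Bool,
      sp u (mix β σ τ) * sp w (mix β σ τ) * (sp j (mix β σ τ) * sp l (mix β σ τ)) = a σ * b τ) →
      (Odd' a ∨ Odd' b) →
      ∑ σ, ∑ τ, W (pB B β) σ * W (pB B (neg β)) τ *
        (sp u (mix β σ τ) * sp w (mix β σ τ) * (sp j (mix β σ τ) * sp l (mix β σ τ))) = 0 := by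
    intro a b hab h
    have e : ∑ σ, ∑ τ, W (pB B β) σ * W (pB B (neg β)) τ *
        (sp u (mix β σ τ) * sp w (mix β σ τ) * (sp j (mix β σ τ) * sp l (mix β σ τ))) =
        ∑ σ, ∑ τ, W (pB B β) σ * W (pB B (neg β)) τ * (a σ * b τ) :=
      Finset.sum_congr rfl fun σ _ => Finset.sum_congr rfl fun τ _ => by rw [hab]
    rw [e, sum_two]
    rcases h with h | h
    · rw [sum_odd h, zero_mul]
    · rw [sum_odd h, mul_zero]
  have key2 : ∀ x y : V, (∀ σ τ : V → Bool,
      sp u (mix β σ τ) * sp w (mix β σ τ) * (sp j (mix β σ τ) * sp l (mix β σ τ)) =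
        sp u σ * sp w τ * (sp x σ * sp y τ)) →
      0 ≤ ∑ σ, ∑ τ, W (pB B β) σ * W (pB B (neg β)) τ *
        (sp u (mix β σ τ) * sp w (mix β σ τ) * (sp j (mix β σ τ) * sp l (mix β σ τ))) := by
    intro x y hxy
    have h := two_fkg (W_pos (pB B β)) (W_fkg (coup_pB hB β)) (W_pos (pB B (neg β)))
      (W_fkg (coup_pB hB (neg β))) sm_mul (sp_monotone u) (sp_monotone w) (sp_monotone x)
      (sp_monotone y) (sum_sp _ u) (sum_sp _ w)
    refine le_of_le_of_eq h ?_
    refine Finset.sum_congr rfl fun σ _ => Finset.sum_congr rfl fun τ _ => ?_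
    rw [hxy]
  cases hj : β j with
  | true =>
    cases hl : β l with
    | true =>
      refine (key (fun σ => sp u σ * (sp j σ * sp l σ)) (fun τ => sp w τ) ?_ ?_).ge
      · intro σ τ
        simp only [sp_mix, hu, hw, hj, hl, if_true, Bool.false_eq_true, if_false]
        ring
      · exact Or.inr fun σ => sp_neg w σ
    | false =>
      refine key2 j l ?_
      intro σ τ
      simp only [sp_mix, hu, hw, hj, hl, if_true, Bool.false_eq_true, if_false]
  | false =>
    cases hl : β l with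
    | true =>
      refine key2 l j ?_
      intro σ τ
      simp only [sp_mix, hu, hw, hj, hl, if_true, Bool.false_eq_true, if_false]
      ring
    | false =>
      refine (key (fun σ => sp u σ) (fun τ => sp w τ * (sp j τ * sp l τ)) ?_ ?_).ge
      · intro σ τ
        simp only [sp_mix, hu, hw, hj, hl, if_true, Bool.false_eq_true, if_false]
        ring
      · exact Or.inl fun σ => sp_neg u σ

/-- The second Griffiths inequality for two pairs. -/
theorem ineq_gks {B : V → V → ℝ} (hB : Coup B) (u w j l : V) :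
    0 ≤ ∑ σ, ∑ σ', W B σ * W B σ' * ((sp u σ * sp w σ - sp u σ' * sp w σ') *
      (sp j σ * sp l σ)) := by
  apply dup_nonneg B (fun σ σ' => (sp u σ * sp w σ - sp u σ' * sp w σ') * (sp j σ * sp l σ))
  intro β
  have h2 : ∑ σ, W (tB B β) σ * ((sp u σ * sp w σ - sp u (tw β σ) * sp w (tw β σ)) *
      (sp j σ * sp l σ)) =
      (1 - sp u β * sp w β) * ∑ σ, W (tB B β) σ * (sp u σ * sp w σ * (sp j σ * sp l σ)) := by
    rw [Finset.mul_sum]
    refine Finset.sum_congr rfl fun σ _ => ?_
    rw [sp_tw, sp_tw]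
    ring
  rw [h2]
  cases hu : β u with
  | true =>
    cases hw : β w with
    | true =>
      rw [sp_true hu, sp_true hw]
      simp
    | false =>
      rw [sp_true hu, sp_false hw]
      exact mul_nonneg (by norm_num) (gks_case hB j l hu hw)
  | false =>
    cases hw : β w with
    | true =>
      rw [sp_false hu, sp_true hw]
      refine mul_nonneg (by norm_num) ?_
      refine le_of_le_of_eq (gks_case hB j l hw hu) ?_
      refine Finset.sum_congr rfl fun σ _ => ?_
      ring
    | false =>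
      rw [sp_false hu, sp_false hw]
      simp

omit [Fintype V] [DecidableEq V] in
theorem sp_cases (l : V) (σ : V → Bool) : sp l σ = 1 ∨ sp l σ = -1 := by
  unfold sp
  cases σ l <;> simp [spin]

/-- A neighbour of `v`. -/
theorem ineq_nbr {A B : V → V → ℝ} (hA : Coup A) (hB : Coup B) (v l : V) {φ : ℝ → ℝ}
    (hφ : ConvexOn ℝ (Set.Icc (-1) 1) φ) {s : ℝ} (hs : 0 ≤ s) :
    0 ≤ ∑ σ, ∑ σ', W B σ * W B σ' *
      (φ (Real.tanh (fld A v σ + s * sp l σ)) * Real.cosh (fld A v σ + s * sp l σ) *
          Real.cosh (fld A v σ') -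
        φ (Real.tanh (fld A v σ)) * Real.cosh (fld A v σ) *
          Real.cosh (fld A v σ' + s * sp l σ')) := by
  have hF := sm_FF hφ
  apply dup_nonneg B (fun σ σ' =>
      φ (Real.tanh (fld A v σ + s * sp l σ)) * Real.cosh (fld A v σ + s * sp l σ) *
          Real.cosh (fld A v σ') -
        φ (Real.tanh (fld A v σ)) * Real.cosh (fld A v σ) *
          Real.cosh (fld A v σ' + s * sp l σ'))
  intro β
  apply mix_nonneg B β (fun σ =>
      φ (Real.tanh (fld A v σ + s * sp l σ)) * Real.cosh (fld A v σ + s * sp l σ) *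
          Real.cosh (fld A v (tw β σ)) -
        φ (Real.tanh (fld A v σ)) * Real.cosh (fld A v σ) *
          Real.cosh (fld A v (tw β σ) + s * sp l (tw β σ)))
  cases hl : β l with
  | true =>
    have h1 : ∀ τ : V → Bool, 0 ≤ ∑ σ, W (pB B β) σ * (sp l σ *
        (FF φ (Xf A v β σ + s * sp l σ / 2) (Xf A v (neg β) τ + s / 2) -
          FF φ (Xf A v β σ + s * sp l σ / 2) (Xf A v (neg β) τ - s / 2))) := by
      intro τ
      refine fkg_pos (W_pos _) (W_fkg (coup_pB hB β)) (sp_monotone l) ?_ (sum_sp _ l)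
      intro σ σ' h
      have h1 : Xf A v β σ + s * sp l σ / 2 ≤ Xf A v β σ' + s * sp l σ' / 2 := by
        have e1 := Xf_mono hA v β h
        have e2 := mul_le_mul_of_nonneg_left (sp_monotone l h) hs
        linarith
      have h2 := hF _ _ (Xf A v (neg β) τ - s / 2) (Xf A v (neg β) τ + s / 2) h1 (by linarith)
      simp only
      linarith
    have h2 := Finset.sum_nonneg fun (τ : V → Bool) (_ : τ ∈ univ) =>
      mul_nonneg (W_pos (pB B (neg β)) τ).le (h1 τ)
    refine le_of_le_of_eq h2 ?_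
    rw [Finset.sum_comm]
    refine Finset.sum_congr rfl fun τ _ => ?_
    rw [Finset.mul_sum]
    refine Finset.sum_congr rfl fun σ _ => ?_
    rw [fld_tw, fld_eq A v β (mix β σ τ), Xf_mix, Xf_neg_mix, sp_tw, sp_mix, if_pos hl,
      sp_true hl, mul_one]
    unfold FF
    rcases sp_cases l σ with h | h
    · rw [h]
      have e1 : Xf A v β σ + Xf A v (neg β) τ + s * 1 =
          Xf A v β σ + s * 1 / 2 + (Xf A v (neg β) τ + s / 2) := by ring
      have e2 : Xf A v β σ - Xf A v (neg β) τ =
          Xf A v β σ + s * 1 / 2 - (Xf A v (neg β) τ + s / 2) := by ring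
      have e3 : Xf A v β σ + Xf A v (neg β) τ =
          Xf A v β σ + s * 1 / 2 + (Xf A v (neg β) τ - s / 2) := by ring
      have e4 : Xf A v β σ - Xf A v (neg β) τ + s * 1 =
          Xf A v β σ + s * 1 / 2 - (Xf A v (neg β) τ - s / 2) := by ring
      rw [e1, e4, e2, e3]
      ring
    · rw [h]
      have e1 : Xf A v β σ + Xf A v (neg β) τ + s * -1 =
          Xf A v β σ + s * -1 / 2 + (Xf A v (neg β) τ - s / 2) := by ring
      have e2 : Xf A v β σ - Xf A v (neg β) τ =
          Xf A v β σ + s * -1 / 2 - (Xf A v (neg β) τ - s / 2) := by ring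
      have e3 : Xf A v β σ + Xf A v (neg β) τ =
          Xf A v β σ + s * -1 / 2 + (Xf A v (neg β) τ + s / 2) := by ring
      have e4 : Xf A v β σ - Xf A v (neg β) τ + s * -1 =
          Xf A v β σ + s * -1 / 2 - (Xf A v (neg β) τ + s / 2) := by ring
      rw [e1, e4, e2, e3]
      ring
  | false =>
    have h1 : ∀ σ : V → Bool, 0 ≤ ∑ τ, W (pB B (neg β)) τ * (sp l τ *
        (FF φ (Xf A v β σ + s / 2) (Xf A v (neg β) τ + s * sp l τ / 2) -
          FF φ (Xf A v β σ - s / 2) (Xf A v (neg β) τ + s * sp l τ / 2))) := by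
      intro σ
      refine fkg_pos (W_pos _) (W_fkg (coup_pB hB (neg β))) (sp_monotone l) ?_ (sum_sp _ l)
      intro τ τ' h
      have h1 : Xf A v (neg β) τ + s * sp l τ / 2 ≤ Xf A v (neg β) τ' + s * sp l τ' / 2 := by
        have e1 := Xf_mono hA v (neg β) h
        have e2 := mul_le_mul_of_nonneg_left (sp_monotone l h) hs
        linarith
      have h2 := hF (Xf A v β σ - s / 2) (Xf A v β σ + s / 2) _ _ (by linarith) h1
      simp only
      linarith
    have h2 := Finset.sum_nonneg fun (σ : V → Bool) (_ : σ ∈ univ) =>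
      mul_nonneg (W_pos (pB B β) σ).le (h1 σ)
    refine le_of_le_of_eq h2 ?_
    refine Finset.sum_congr rfl fun σ _ => ?_
    rw [Finset.mul_sum]
    refine Finset.sum_congr rfl fun τ _ => ?_
    rw [fld_tw, fld_eq A v β (mix β σ τ), Xf_mix, Xf_neg_mix, sp_tw, sp_mix,
      if_neg (by rw [hl]; simp), sp_false hl]
    unfold FF
    rcases sp_cases l τ with h | h
    · rw [h]
      have e1 : Xf A v β σ + Xf A v (neg β) τ + s * 1 =
          Xf A v β σ + s / 2 + (Xf A v (neg β) τ + s * 1 / 2) := by ring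
      have e2 : Xf A v β σ - Xf A v (neg β) τ =
          Xf A v β σ + s / 2 - (Xf A v (neg β) τ + s * 1 / 2) := by ring
      have e3 : Xf A v β σ + Xf A v (neg β) τ =
          Xf A v β σ - s / 2 + (Xf A v (neg β) τ + s * 1 / 2) := by ring
      have e4 : Xf A v β σ - Xf A v (neg β) τ + s * (1 * -1) =
          Xf A v β σ - s / 2 - (Xf A v (neg β) τ + s * 1 / 2) := by ring
      rw [e1, e4, e2, e3]
      ring
    · rw [h]
      have e1 : Xf A v β σ + Xf A v (neg β) τ + s * -1 =
          Xf A v β σ - s / 2 + (Xf A v (neg β) τ + s * -1 / 2) := by ring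
      have e2 : Xf A v β σ - Xf A v (neg β) τ =
          Xf A v β σ - s / 2 - (Xf A v (neg β) τ + s * -1 / 2) := by ring
      have e3 : Xf A v β σ + Xf A v (neg β) τ =
          Xf A v β σ + s / 2 + (Xf A v (neg β) τ + s * -1 / 2) := by ring
      have e4 : Xf A v β σ - Xf A v (neg β) τ + s * (-1 * -1) =
          Xf A v β σ + s / 2 - (Xf A v (neg β) τ + s * -1 / 2) := by ring
      rw [e1, e4, e2, e3]
      ring

end Pool.Agent.Lib.MP_f82811_pr.LF
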