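import Pool.Agent.Lib.MP_f82811_pr.LF.Graph
import Pool.Agent.Lib.MP_f82811_pr.Bridge

/-!
# Linear functions: the main theorem
-/

set_option autoImplicit false

namespace Pool.Agent.Lib.MP_f82811_pr.LF

open Finset HT

variable {V : Type*} [Fintype V] [DecidableEq V]

theorem gibbs_mat (G : SimpleGraph V) [DecidableRel G.Adj] (J : Sym2 V → ℝ) :
    gibbs G J = normalize (W (mat G J)) := by
  rw [gibbs_eq, weight_eq_W]

variable (G : SimpleGraph V) [DecidableRel G.Adj] {J J' : Sym2 V → ℝ}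

/-- The law of the conditional mean of every spin is nondecreasing in convex order. -/
theorem convex_order (hJ : ∀ e ∈ G.edgeSet, 0 ≤ J e) (hJJ' : ∀ e ∈ G.edgeSet, J e ≤ J' e)
    (v : V) {φ : ℝ → ℝ} (hφ : ConvexOn ℝ (Set.Icc (-1) 1) φ) :
    expect (gibbs G J) (fun σ => φ (condMean (gibbs G J) v σ)) ≤
      expect (gibbs G J') (fun σ => φ (condMean (gibbs G J') v σ)) := by
  rw [gibbs_mat, gibbs_mat, expect_eq (coup_mat G hJ),
    expect_eq (coup_mat G fun e he => (hJ e he).trans (hJJ' e he))]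
  exact all_edges G (fun A => RR A v φ) (fun A hA j l hjl s hs => RR_addP hA v hjl hs hφ) hJ hJJ'

theorem RR_mono (hJ : ∀ e ∈ G.edgeSet, 0 ≤ J e) (hJJ' : ∀ e ∈ G.edgeSet, J e ≤ J' e)
    (v : V) : RR (mat G J) v (fun x => x ^ 2) ≤ RR (mat G J') v (fun x => x ^ 2) :=
  all_edges G (fun A => RR A v (fun x => x ^ 2)) (fun _ hA _ _ hjl _ hs => RR_addP hA v hjl hs
    ((Even.convexOn_pow (𝕜 := ℝ) even_two).subset (Set.subset_univ _) (convex_Icc _ _))) hJ hJJ'

/-- The Dirichlet form of every linear function is nonincreasing. -/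
theorem dirichlet_mono (hJ : ∀ e ∈ G.edgeSet, 0 ≤ J e) (hJJ' : ∀ e ∈ G.edgeSet, J e ≤ J' e)
    (a : V → ℝ) : dirichlet (gibbs G J') (lin a) ≤ dirichlet (gibbs G J) (lin a) := by
  rw [gibbs_mat, gibbs_mat, dirichlet_lin (coup_mat G hJ),
    dirichlet_lin (coup_mat G fun e he => (hJ e he).trans (hJJ' e he))]
  refine mul_le_mul_of_nonneg_left (Finset.sum_le_sum fun v _ => ?_) (by positivity)
  exact mul_le_mul_of_nonneg_left (sub_le_sub_left (RR_mono G hJ hJJ' v) 1) (sq_nonneg _)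

/-- The variance of every linear function with nonnegative coefficients is nondecreasing. -/
theorem variance_mono (hJ : ∀ e ∈ G.edgeSet, 0 ≤ J e) (hJJ' : ∀ e ∈ G.edgeSet, J e ≤ J' e)
    {a : V → ℝ} (ha : ∀ v, 0 ≤ a v) :
    variance (gibbs G J) (lin a) ≤ variance (gibbs G J') (lin a) := by
  rw [gibbs_mat, gibbs_mat, variance_lin, variance_lin]
  refine Finset.sum_le_sum fun u _ => Finset.sum_le_sum fun w _ => ?_
  refine mul_le_mul_of_nonneg_left ?_ (mul_nonneg (ha u) (ha w))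
  exact all_edges G (fun A => corr A u w) (fun A hA j l hjl s hs => corr_addP hA hjl hs u w)
    hJ hJJ'

theorem dirichlet_abs (hJ : ∀ e ∈ G.edgeSet, 0 ≤ J e) (a : V → ℝ) :
    dirichlet (gibbs G J) (lin fun v => |a v|) = dirichlet (gibbs G J) (lin a) := by
  rw [gibbs_mat, dirichlet_lin (coup_mat G hJ), dirichlet_lin (coup_mat G hJ)]
  simp only [sq_abs]

theorem variance_abs (hJ : ∀ e ∈ G.edgeSet, 0 ≤ J e) (a : V → ℝ) :
    variance (gibbs G J) (lin a) ≤ variance (gibbs G J) (lin fun v => |a v|) := by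
  rw [gibbs_mat, variance_lin, variance_lin]
  refine Finset.sum_le_sum fun u _ => Finset.sum_le_sum fun w _ => ?_
  refine mul_le_mul_of_nonneg_right ?_ (corr_nonneg (coup_mat G hJ) u w)
  rw [← abs_mul]
  exact le_abs_self _

theorem sum_gibbs (J : Sym2 V → ℝ) : ∑ σ, gibbs G J σ = 1 := by
  unfold gibbs
  rw [← Finset.sum_div, div_self (sum_pos' (weight_pos G J)).ne']

theorem dirichlet_nonneg' (hJ : ∀ e ∈ G.edgeSet, 0 ≤ J e) (a : V → ℝ) :
    0 ≤ dirichlet (gibbs G J) (lin a) := by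
  rw [gibbs_mat, dirichlet_lin (coup_mat G hJ)]
  refine mul_nonneg (by positivity) (Finset.sum_nonneg fun v _ => mul_nonneg (sq_nonneg _) ?_)
  linarith [RR_sq_le_one (mat G J) v]

theorem exists_pos [Nonempty V] (J : Sym2 V → ℝ) :
    ∃ a : V → ℝ, 0 < variance (gibbs G J) (lin a) := by
  obtain ⟨v⟩ := ‹Nonempty V›
  refine ⟨Pi.single v 1, ?_⟩
  rw [gibbs_mat, variance_lin]
  have e : ∑ u, ∑ w, (Pi.single v (1 : ℝ) : V → ℝ) u * (Pi.single v (1 : ℝ) : V → ℝ) w *
      corr (mat G J) u w = corr (mat G J) v v := by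
    rw [Finset.sum_eq_single v]
    · rw [Finset.sum_eq_single v]
      · simp
      · intro w _ hw
        simp [hw]
      · intro h
        exact absurd (Finset.mem_univ v) h
    · intro u _ hu
      refine Finset.sum_eq_zero fun w _ => ?_
      simp [hu]
    · intro h
      exact absurd (Finset.mem_univ v) h
  rw [e]
  unfold corr
  have h1 : ∀ σ ∈ (univ : Finset (V → Bool)), W (mat G J) σ * (sp v σ * sp v σ) =
      W (mat G J) σ := by
    intro σ _
    rcases sp_cases v σ with h | h <;> rw [h] <;> ring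
  rw [Finset.sum_congr rfl h1, div_self (sum_pos' (W_pos _)).ne']
  exact one_pos

theorem linGap_of_isEmpty [IsEmpty V] (K : Sym2 V → ℝ) : linGap (gibbs G K) = 0 := by
  unfold linGap
  have h : {r : ℝ | ∃ a : V → ℝ, 0 < variance (gibbs G K) (lin a) ∧
      r = dirichlet (gibbs G K) (lin a) / variance (gibbs G K) (lin a)} = ∅ := by
    ext r
    constructor
    · rintro ⟨a, ha, -⟩
      rw [variance_of_isEmpty] at ha
      exact absurd ha (lt_irrefl _)
    · rintro ⟨⟩
  rw [h, Real.sInf_empty]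

/-- The infimum over the linear functions is nonincreasing in the couplings. -/
theorem linGap_mono (hJ : ∀ e ∈ G.edgeSet, 0 ≤ J e) (hJJ' : ∀ e ∈ G.edgeSet, J e ≤ J' e) :
    linGap (gibbs G J') ≤ linGap (gibbs G J) := by
  have hJ' : ∀ e ∈ G.edgeSet, 0 ≤ J' e := fun e he => (hJ e he).trans (hJJ' e he)
  rcases isEmpty_or_nonempty V with hV | hV
  · rw [linGap_of_isEmpty, linGap_of_isEmpty]
  · unfold linGap
    obtain ⟨a₀, ha₀⟩ := exists_pos G J
    refine le_csInf ⟨_, a₀, ha₀, rfl⟩ ?_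
    rintro r ⟨a, ha, rfl⟩
    have hv1 := variance_abs G hJ a
    have hv2 := variance_mono G hJ hJJ' (a := fun v => |a v|) (fun v => abs_nonneg _)
    have hd1 := dirichlet_mono G hJ hJJ' (fun v => |a v|)
    rw [dirichlet_abs G hJ] at hd1
    have hpos : 0 < variance (gibbs G J') (lin fun v => |a v|) := ha.trans_le (hv1.trans hv2)
    refine le_trans (csInf_le ?_ ⟨fun v => |a v|, hpos, rfl⟩) ?_
    · refine ⟨0, ?_⟩
      rintro r ⟨b, hb, rfl⟩
      exact div_nonneg (dirichlet_nonneg' G hJ' b) hb.le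
    · exact div_le_div₀ (dirichlet_nonneg' G hJ a) hd1 ha (hv1.trans hv2)

/-- The gap is at most the infimum over the linear functions. -/
theorem gap_le_linGap (J : Sym2 V → ℝ) : gap (gibbs G J) ≤ linGap (gibbs G J) := by
  rcases isEmpty_or_nonempty V with hV | hV
  · rw [gap_of_isEmpty, linGap_of_isEmpty]
  · unfold linGap gap
    obtain ⟨a₀, ha₀⟩ := exists_pos G J
    refine csInf_le_csInf ?_ ⟨_, a₀, ha₀, rfl⟩ ?_
    · refine ⟨0, ?_⟩
      rintro r ⟨f, hf, rfl⟩
      refine div_nonneg ?_ hf.le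
      rw [gibbs_mat, dirichlet_eq (W_pos _)]
      refine mul_nonneg (by positivity) (div_nonneg ?_ (sum_pos' (W_pos _)).le)
      exact dir_nonneg (W_pos _) f
    · rintro r ⟨a, ha, rfl⟩
      exact ⟨lin a, ha, rfl⟩

end Pool.Agent.Lib.MP_f82811_pr.LF
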