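import Pool.Agent.Lib.MP_f82811_pr.LF.Ineq
import Pool.Agent.Lib.MP_f82811_pr.HT.Sym
import Pool.Agent.Lib.MP_f82811_pr.HT.Pair

/-!
# Linear functions: monotonicity in one coupling
-/

set_option autoImplicit false

namespace Pool.Agent.Lib.MP_f82811_pr.LF

open Finset HT

variable {V : Type*} [Fintype V] [DecidableEq V]

/-- The couplings which do not involve `v`. -/
def rem (A : V → V → ℝ) (v u w : V) : ℝ := if u = v ∨ w = v then 0 else A u w

omit [Fintype V] in
theorem coup_rem {A : V → V → ℝ} (hA : Coup A) (v : V) : Coup (rem A v) where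
  symm u w := by
    unfold rem
    rw [hA.symm u w]
    simp only [or_comm]
  nonneg u w := by
    unfold rem
    split_ifs
    · exact le_rfl
    · exact hA.nonneg u w
  diag u := by
    unfold rem
    rw [hA.diag]
    simp

theorem en_rem {A : V → V → ℝ} (hA : Coup A) (v : V) (σ : V → Bool) :
    en A σ = en (rem A v) σ + sp v σ * fld A v σ := by
  have h1 : ∀ u w : V, A u w * sp u σ * sp w σ = rem A v u w * sp u σ * sp w σ +
      ((if u = v then A v w * sp v σ * sp w σ else 0) +
        (if w = v then A u v * sp u σ * sp v σ else 0)) := by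
    intro u w
    unfold rem
    by_cases hu : u = v
    · by_cases hw : w = v
      · rw [hu, hw, hA.diag]
        simp
      · rw [hu]
        simp [hw]
    · by_cases hw : w = v
      · rw [hw]
        simp [hu]
      · simp [hu, hw]
  have h2 : ∑ u, ∑ w, A u w * sp u σ * sp w σ = ∑ u, ∑ w, rem A v u w * sp u σ * sp w σ +
      (∑ w, A v w * sp v σ * sp w σ + ∑ u, A u v * sp u σ * sp v σ) := by
    rw [Finset.sum_congr rfl fun u _ => Finset.sum_congr rfl fun w _ => h1 u w]
    rw [Finset.sum_congr rfl fun u _ => Finset.sum_add_distrib, Finset.sum_add_distrib]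
    congr 1
    rw [Finset.sum_congr rfl fun u _ => Finset.sum_add_distrib, Finset.sum_add_distrib]
    congr 1
    · rw [Finset.sum_comm]
      refine Finset.sum_congr rfl fun w _ => ?_
      rw [Finset.sum_ite_eq' univ v (fun _ => A v w * sp v σ * sp w σ),
        if_pos (Finset.mem_univ v)]
    · refine Finset.sum_congr rfl fun u _ => ?_
      rw [Finset.sum_ite_eq' univ v (fun _ => A u v * sp u σ * sp v σ),
        if_pos (Finset.mem_univ v)]
  have h3 : ∑ w, A v w * sp v σ * sp w σ = sp v σ * fld A v σ := by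
    unfold fld
    rw [Finset.mul_sum]
    exact Finset.sum_congr rfl fun w _ => by ring
  have h4 : ∑ u, A u v * sp u σ * sp v σ = sp v σ * fld A v σ := by
    unfold fld
    rw [Finset.mul_sum]
    exact Finset.sum_congr rfl fun w _ => by rw [hA.symm w v]; ring
  unfold en
  rw [h2, h3, h4]
  ring

theorem W_rem {A : V → V → ℝ} (hA : Coup A) (v : V) (σ : V → Bool) :
    W A σ = W (rem A v) σ * Real.exp (sp v σ * fld A v σ) := by
  unfold W
  rw [← Real.exp_add, ← en_rem hA]

theorem fld_flip {A : V → V → ℝ} (hA : Coup A) (v : V) (σ : V → Bool) :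
    fld A v (flip v σ) = fld A v σ := fld_update_self hA v σ _

theorem fld_rem (A : V → V → ℝ) (v : V) (σ : V → Bool) : fld (rem A v) v σ = 0 := by
  unfold fld rem
  simp

theorem W_rem_flip {A : V → V → ℝ} (hA : Coup A) (v : V) (σ : V → Bool) :
    W (rem A v) (flip v σ) = W (rem A v) σ := by
  have h1 := W_rem hA v σ
  have h2 := W_rem (coup_rem hA v) v σ
  have h3 := W_rem (coup_rem hA v) v (flip v σ)
  rw [fld_rem, mul_zero, Real.exp_zero, mul_one] at h2 h3
  rw [h2, h3]
  unfold W
  congr 1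
  unfold en
  congr 1
  refine Finset.sum_congr rfl fun u _ => Finset.sum_congr rfl fun w _ => ?_
  by_cases hu : u = v
  · have : rem (rem A v) v u w = 0 := by unfold rem; simp [hu]
    rw [this]
    ring
  · by_cases hw : w = v
    · have : rem (rem A v) v u w = 0 := by unfold rem; simp [hw]
      rw [this]
      ring
    · have e1 : sp u (flip v σ) = sp u σ := sp_update_ne hu σ _
      have e2 : sp w (flip v σ) = sp w σ := sp_update_ne hw σ _
      rw [e1, e2]

/-- Integrating out the spin at `v`. -/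
theorem sum_out {A : V → V → ℝ} (hA : Coup A) (v : V) {g : (V → Bool) → ℝ}
    (hg : ∀ σ, g (flip v σ) = g σ) :
    ∑ σ, W A σ * g σ = ∑ σ, W (rem A v) σ * (g σ * Real.cosh (fld A v σ)) := by
  have h1 : ∑ σ, W A σ * g σ = (∑ σ, (W A σ * g σ + W A (flip v σ) * g (flip v σ))) / 2 := by
    rw [Finset.sum_add_distrib, sum_flip v (fun σ => W A σ * g σ)]
    ring
  rw [h1, Finset.sum_div]
  refine Finset.sum_congr rfl fun σ _ => ?_
  rw [hg, W_rem hA v σ, W_rem hA v (flip v σ), W_rem_flip hA, fld_flip hA, sp_flip_self,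
    Real.cosh_eq]
  rcases sp_cases v σ with h | h
  · rw [h, one_mul, neg_one_mul]
    ring
  · rw [h, neg_neg, one_mul, neg_one_mul]
    ring

/-- The mean of a function of the conditional mean of the spin at `v`. -/
noncomputable def RR (A : V → V → ℝ) (v : V) (φ : ℝ → ℝ) : ℝ :=
  (∑ σ, W A σ * φ (tau A v σ)) / ∑ σ, W A σ

/-- The correlation of the spins at `u` and `w`. -/
noncomputable def corr (A : V → V → ℝ) (u w : V) : ℝ :=
  (∑ σ, W A σ * (sp u σ * sp w σ)) / ∑ σ, W A σ

/-- The couplings with one pair strengthened. -/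
def addP (A : V → V → ℝ) (j l : V) (s : ℝ) (u w : V) : ℝ := A u w + s * pairMat j l u w

omit [Fintype V] in
theorem coup_addP {A : V → V → ℝ} (hA : Coup A) {j l : V} (hjl : j ≠ l) {s : ℝ} (hs : 0 ≤ s) :
    Coup (addP A j l s) where
  symm u w := by
    unfold addP
    rw [hA.symm u w, (coup_pairMat hjl).symm u w]
  nonneg u w := add_nonneg (hA.nonneg u w) (mul_nonneg hs ((coup_pairMat hjl).nonneg u w))
  diag u := by
    unfold addP
    rw [hA.diag, (coup_pairMat hjl).diag]
    ring

theorem en_pairMat {j l : V} (hjl : j ≠ l) (σ : V → Bool) :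
    en (pairMat j l) σ = sp j σ * sp l σ := by
  have h := en_rem (coup_pairMat hjl) j σ
  have h2 : en (rem (pairMat j l) j) σ = 0 := by
    unfold en
    rw [Finset.sum_eq_zero, zero_div]
    intro u _
    refine Finset.sum_eq_zero fun w _ => ?_
    have : rem (pairMat j l) j u w = 0 := by
      unfold rem pairMat
      by_cases h1 : u = j ∨ w = j
      · rw [if_pos h1]
      · rw [if_neg h1]
        push Not at h1
        rw [if_neg]
        rintro (⟨h2, _⟩ | ⟨_, h2⟩)
        · exact h1.1 h2
        · exact h1.2 h2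
    rw [this]
    ring
  rw [h, h2, fld_pairMat hjl, zero_add]

theorem W_addP (A : V → V → ℝ) {j l : V} (hjl : j ≠ l) (s : ℝ) (σ : V → Bool) :
    W (addP A j l s) σ = W A σ * (Real.cosh s + Real.sinh s * (sp j σ * sp l σ)) := by
  have h := W_add A (pairMat j l) s σ
  rw [en_pairMat hjl, exp_pair] at h
  exact h

theorem sum_addP (A : V → V → ℝ) {j l : V} (hjl : j ≠ l) (s : ℝ) (g : (V → Bool) → ℝ) :
    ∑ σ, W (addP A j l s) σ * g σ = Real.cosh s * ∑ σ, W A σ * g σ +
      Real.sinh s * ∑ σ, W A σ * (sp j σ * sp l σ * g σ) := by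
  rw [Finset.mul_sum, Finset.mul_sum, ← Finset.sum_add_distrib]
  refine Finset.sum_congr rfl fun σ _ => ?_
  rw [W_addP A hjl]
  ring

/-- A nonnegative covariance gives a nondecreasing mean. -/
theorem mean_addP {A : V → V → ℝ} {j l : V} (hjl : j ≠ l) {s : ℝ} (hs : 0 ≤ s)
    {g : (V → Bool) → ℝ}
    (h : (∑ σ, W A σ * g σ) * ∑ σ, W A σ * (sp j σ * sp l σ) ≤
      (∑ σ, W A σ * (sp j σ * sp l σ * g σ)) * ∑ σ, W A σ) :
    (∑ σ, W A σ * g σ) / ∑ σ, W A σ ≤
      (∑ σ, W (addP A j l s) σ * g σ) / ∑ σ, W (addP A j l s) σ := by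
  have hZ : 0 < ∑ σ, W A σ := sum_pos' (W_pos A)
  have hZ' : 0 < ∑ σ, W (addP A j l s) σ := sum_pos' (W_pos _)
  have e1 := sum_addP A hjl s g
  have e2 := sum_addP A hjl s (fun _ => 1)
  simp only [mul_one] at e2
  rw [div_le_div_iff₀ hZ hZ', e1, e2]
  have h3 := mul_le_mul_of_nonneg_left h (Real.sinh_nonneg_iff.2 hs)
  nlinarith

/-- The second Griffiths inequality: correlations are nondecreasing in every coupling. -/
theorem corr_addP {A : V → V → ℝ} (hA : Coup A) {j l : V} (hjl : j ≠ l) {s : ℝ} (hs : 0 ≤ s)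
    (u w : V) : corr A u w ≤ corr (addP A j l s) u w := by
  unfold corr
  apply mean_addP hjl hs
  have h := ineq_gks hA u w j l
  have e : ∑ σ, ∑ σ', W A σ * W A σ' * ((sp u σ * sp w σ - sp u σ' * sp w σ') *
      (sp j σ * sp l σ)) =
      (∑ σ, W A σ * (sp j σ * sp l σ * (sp u σ * sp w σ))) * ∑ σ, W A σ -
        (∑ σ, W A σ * (sp u σ * sp w σ)) * ∑ σ, W A σ * (sp j σ * sp l σ) := by
    rw [mul_comm (∑ σ, W A σ * (sp u σ * sp w σ)), Finset.sum_mul_sum, Finset.sum_mul_sum,
      ← Finset.sum_sub_distrib]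
    refine Finset.sum_congr rfl fun σ _ => ?_
    rw [← Finset.sum_sub_distrib]
    exact Finset.sum_congr rfl fun τ _ => by ring
  rw [e] at h
  linarith

theorem tau_flip {A : V → V → ℝ} (hA : Coup A) (v : V) (σ : V → Bool) :
    tau A v (flip v σ) = tau A v σ := tau_update_self hA v σ _

/-- Strengthening a pair of other vertices. -/
theorem RR_addP_other {A : V → V → ℝ} (hA : Coup A) {v j l : V} (hjl : j ≠ l) (hj : j ≠ v)
    (hl : l ≠ v) {s : ℝ} (hs : 0 ≤ s) {φ : ℝ → ℝ} (hφ : ConvexOn ℝ (Set.Icc (-1) 1) φ) :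
    RR A v φ ≤ RR (addP A j l s) v φ := by
  have hfld : ∀ σ, fld (addP A j l s) v σ = fld A v σ := by
    intro σ
    unfold fld addP
    refine Finset.sum_congr rfl fun u _ => ?_
    have : pairMat j l v u = 0 := by
      unfold pairMat
      rw [if_neg]
      rintro (⟨h, _⟩ | ⟨h, _⟩)
      · exact hj h.symm
      · exact hl h.symm
    rw [this]
    ring
  have htau : ∀ σ, tau (addP A j l s) v σ = tau A v σ := by
    intro σ
    unfold tau
    rw [hfld]
  have hR : RR (addP A j l s) v φ =
      (∑ σ, W (addP A j l s) σ * φ (tau A v σ)) / ∑ σ, W (addP A j l s) σ := by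
    unfold RR
    congr 1
    exact Finset.sum_congr rfl fun σ _ => by rw [htau]
  rw [hR]
  unfold RR
  apply mean_addP hjl hs
  have hsj : ∀ σ : V → Bool, sp j (flip v σ) = sp j σ := fun σ => sp_update_ne hj σ _
  have hsl : ∀ σ : V → Bool, sp l (flip v σ) = sp l σ := fun σ => sp_update_ne hl σ _
  rw [sum_out hA v (g := fun σ => φ (tau A v σ)) (fun σ => by rw [tau_flip hA]),
    sum_out hA v (g := fun σ => sp j σ * sp l σ) (fun σ => by rw [hsj, hsl]),
    sum_out hA v (g := fun σ => sp j σ * sp l σ * φ (tau A v σ))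
      (fun σ => by rw [hsj, hsl, tau_flip hA])]
  have hone := sum_out hA v (g := fun _ => 1) (fun _ => rfl)
  simp only [mul_one, one_mul] at hone
  rw [hone]
  have h := ineq_pair hA (coup_rem hA v) v j l hφ
  have e : ∑ σ, ∑ σ', W (rem A v) σ * W (rem A v) σ' * ((sp j σ * sp l σ - sp j σ' * sp l σ') *
      (φ (Real.tanh (fld A v σ)) * Real.cosh (fld A v σ) * Real.cosh (fld A v σ'))) =
      (∑ σ, W (rem A v) σ * (sp j σ * sp l σ * φ (tau A v σ) * Real.cosh (fld A v σ))) *
        (∑ σ, W (rem A v) σ * Real.cosh (fld A v σ)) -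
      (∑ σ, W (rem A v) σ * (φ (tau A v σ) * Real.cosh (fld A v σ))) *
        ∑ σ, W (rem A v) σ * (sp j σ * sp l σ * Real.cosh (fld A v σ)) := by
    rw [Finset.sum_mul_sum, Finset.sum_mul_sum, ← Finset.sum_sub_distrib]
    refine Finset.sum_congr rfl fun σ _ => ?_
    rw [← Finset.sum_sub_distrib]
    refine Finset.sum_congr rfl fun τ _ => ?_
    unfold tau
    ring
  rw [e] at h
  linarith

/-- Strengthening a pair which contains `v`. -/
theorem RR_addP_self {A : V → V → ℝ} (hA : Coup A) {v l : V} (hvl : v ≠ l) {s : ℝ}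
    (hs : 0 ≤ s) {φ : ℝ → ℝ} (hφ : ConvexOn ℝ (Set.Icc (-1) 1) φ) :
    RR A v φ ≤ RR (addP A v l s) v φ := by
  have hA' := coup_addP hA hvl hs
  have hfld : ∀ σ, fld (addP A v l s) v σ = fld A v σ + s * sp l σ := by
    intro σ
    have h1 : fld (addP A v l s) v σ = fld A v σ + s * fld (pairMat v l) v σ := by
      unfold fld addP
      rw [Finset.mul_sum, ← Finset.sum_add_distrib]
      exact Finset.sum_congr rfl fun u _ => by ring
    rw [h1, fld_pairMat hvl]
  have hrem : rem (addP A v l s) v = rem A v := by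
    funext u w
    unfold rem addP pairMat
    by_cases h : u = v ∨ w = v
    · rw [if_pos h, if_pos h]
    · rw [if_neg h, if_neg h, if_neg]
      · ring
      · push Not at h
        rintro (⟨h2, _⟩ | ⟨_, h2⟩)
        · exact h.1 h2
        · exact h.2 h2
  unfold RR
  rw [div_le_div_iff₀ (sum_pos' (W_pos A)) (sum_pos' (W_pos _))]
  rw [sum_out hA v (g := fun σ => φ (tau A v σ)) (fun σ => by rw [tau_flip hA]),
    sum_out hA' v (g := fun σ => φ (tau (addP A v l s) v σ)) (fun σ => by rw [tau_flip hA'])]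
  have hone := sum_out hA v (g := fun _ => 1) (fun _ => rfl)
  have hone' := sum_out hA' v (g := fun _ => 1) (fun _ => rfl)
  simp only [mul_one, one_mul] at hone hone'
  rw [hone, hone', hrem]
  have h := ineq_nbr hA (coup_rem hA v) v l hφ hs
  have e : ∑ σ, ∑ σ', W (rem A v) σ * W (rem A v) σ' *
      (φ (Real.tanh (fld A v σ + s * sp l σ)) * Real.cosh (fld A v σ + s * sp l σ) *
          Real.cosh (fld A v σ') -
        φ (Real.tanh (fld A v σ)) * Real.cosh (fld A v σ) *
          Real.cosh (fld A v σ' + s * sp l σ')) =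
      (∑ σ, W (rem A v) σ * (φ (tau (addP A v l s) v σ) *
        Real.cosh (fld (addP A v l s) v σ))) *
        (∑ σ, W (rem A v) σ * Real.cosh (fld A v σ)) -
      (∑ σ, W (rem A v) σ * (φ (tau A v σ) * Real.cosh (fld A v σ))) *
        ∑ σ, W (rem A v) σ * Real.cosh (fld (addP A v l s) v σ) := by
    rw [Finset.sum_mul_sum, Finset.sum_mul_sum, ← Finset.sum_sub_distrib]
    refine Finset.sum_congr rfl fun σ _ => ?_
    rw [← Finset.sum_sub_distrib]
    refine Finset.sum_congr rfl fun τ _ => ?_
    unfold tau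
    rw [hfld, hfld]
    ring
  rw [e] at h
  linarith

/-- The law of the conditional mean of a spin is nondecreasing in convex order. -/
theorem RR_addP {A : V → V → ℝ} (hA : Coup A) (v : V) {j l : V} (hjl : j ≠ l) {s : ℝ}
    (hs : 0 ≤ s) {φ : ℝ → ℝ} (hφ : ConvexOn ℝ (Set.Icc (-1) 1) φ) :
    RR A v φ ≤ RR (addP A j l s) v φ := by
  by_cases hj : j = v
  · subst hj
    exact RR_addP_self hA hjl hs hφ
  · by_cases hl : l = v
    · subst hl
      have h := RR_addP_self hA (Ne.symm hjl) hs hφ
      have e : addP A l j s = addP A j l s := by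
        funext u w
        unfold addP pairMat
        congr 2
        apply if_congr _ rfl rfl
        constructor
        · rintro (h | h)
          · exact Or.inr h
          · exact Or.inl h
        · rintro (h | h)
          · exact Or.inr h
          · exact Or.inl h
      rw [e] at h
      exact h
    · exact RR_addP_other hA hjl hj hl hs hφ

end Pool.Agent.Lib.MP_f82811_pr.LF
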