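import Pool.Agent.Lib.MP_f82811_pr.LF.Main
import Pool.Agent.Lib.MP_f82811_pr.HT.Eig
import Pool.Agent.Lib.MP_f82811_pr.HT.Tanh

/-!
# Linear functions attain the gap when every vertex has at most two neighbours
-/

set_option autoImplicit false

namespace Pool.Agent.Lib.MP_f82811_pr.LF

open Finset HT

variable {V : Type*} [Fintype V] [DecidableEq V]

omit [Fintype V] [DecidableEq V] in
/-- The hyperbolic tangent of a sum of two signed numbers. -/
theorem tanh_two {x y e d : ℝ} (he : e = 1 ∨ e = -1) (hd : d = 1 ∨ d = -1) :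
    Real.tanh (x * e + y * d) = (Real.tanh (x + y) + Real.tanh (x - y)) / 2 * e +
      (Real.tanh (x + y) - Real.tanh (x - y)) / 2 * d := by
  rcases he with he | he <;> rcases hd with hd | hd <;> rw [he, hd]
  · rw [mul_one, mul_one]; ring
  · have : x * 1 + y * -1 = x - y := by ring
    rw [this]; ring
  · have : x * -1 + y * 1 = -(x - y) := by ring
    rw [this, Real.tanh_neg]; ring
  · have : x * -1 + y * -1 = -(x + y) := by ring
    rw [this, Real.tanh_neg]; ring

/-- With at most two neighbours the conditional mean is linear. -/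
theorem tau_linear {A : V → V → ℝ} (hA : Coup A) (v : V)
    (h2 : ((univ : Finset V).filter fun u => A v u ≠ 0).card ≤ 2) :
    ∃ c : V → ℝ, (∀ u, 0 ≤ c u) ∧ ∀ σ, tau A v σ = ∑ u, c u * sp u σ := by
  have key : ∀ s : Finset V, (univ : Finset V).filter (fun u => A v u ≠ 0) = s →
      ∀ σ, fld A v σ = ∑ u ∈ s, A v u * sp u σ := by
    intro s hs σ
    unfold fld
    rw [← hs, Finset.sum_filter]
    refine Finset.sum_congr rfl fun u _ => ?_
    split_ifs with h
    · rfl
    · push Not at h
      rw [h, zero_mul]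
  have hsum : ∀ (c : V → ℝ) (s : Finset V), (∀ u, u ∉ s → c u = 0) → ∀ σ : V → Bool,
      ∑ u, c u * sp u σ = ∑ u ∈ s, c u * sp u σ := by
    intro c s hc σ
    refine (Finset.sum_subset (Finset.subset_univ s) fun u _ hu => ?_).symm
    rw [hc u hu, zero_mul]
  obtain ⟨s, hs⟩ : ∃ s, (univ : Finset V).filter (fun u => A v u ≠ 0) = s := ⟨_, rfl⟩
  have hkey := key s hs
  rw [hs] at h2
  rcases Nat.lt_or_ge s.card 1 with h0 | h0
  · have hs0 : s = ∅ := Finset.card_eq_zero.1 (by omega)
    refine ⟨fun _ => 0, fun _ => le_rfl, fun σ => ?_⟩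
    unfold tau
    rw [hkey σ, hs0]
    simp
  rcases Nat.lt_or_ge s.card 2 with h1 | h1
  · obtain ⟨j, hj⟩ := Finset.card_eq_one.1 (show s.card = 1 by omega)
    refine ⟨fun u => if u = j then Real.tanh (A v j) else 0, fun u => ?_, fun σ => ?_⟩
    · simp only
      split_ifs
      · have := tanh_mono (hA.nonneg v j)
        rwa [Real.tanh_zero] at this
      · exact le_rfl
    · rw [hsum _ {j} (fun u hu => if_neg (by simpa using hu)), Finset.sum_singleton, if_pos rfl]
      unfold tau
      rw [hkey σ, hj, Finset.sum_singleton]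
      rcases sp_cases j σ with h | h <;> rw [h]
      · rw [mul_one, mul_one]
      · rw [mul_neg_one, mul_neg_one, Real.tanh_neg]
  · obtain ⟨j, l, hjl, hs2⟩ := Finset.card_eq_two.1 (show s.card = 2 by omega)
    have hj0 := hA.nonneg v j
    have hl0 := hA.nonneg v l
    refine ⟨fun u => if u = j then (Real.tanh (A v j + A v l) + Real.tanh (A v j - A v l)) / 2
      else if u = l then (Real.tanh (A v j + A v l) - Real.tanh (A v j - A v l)) / 2 else 0,
      fun u => ?_, fun σ => ?_⟩
    · simp only
      split_ifs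
      · have h3 := tanh_mono (show -(A v j - A v l) ≤ A v j + A v l by linarith)
        rw [Real.tanh_neg] at h3
        linarith
      · have h3 := tanh_mono (show A v j - A v l ≤ A v j + A v l by linarith)
        linarith
      · exact le_rfl
    · rw [hsum _ {j, l} (fun u hu => by
        simp only [Finset.mem_insert, Finset.mem_singleton, not_or] at hu
        rw [if_neg hu.1, if_neg hu.2]), Finset.sum_pair hjl, if_pos rfl, if_neg hjl.symm,
        if_pos rfl]
      unfold tau
      rw [hkey σ, hs2, Finset.sum_pair hjl]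
      exact tanh_two (sp_cases j σ) (sp_cases l σ)

/-- The linear functions with nonnegative coefficients. -/
def LinPos (f : (V → Bool) → ℝ) : Prop :=
  (∀ v, 0 ≤ D v f (fun _ => true)) ∧ ∀ σ, f σ = ∑ v, D v f (fun _ => true) * sp v σ

theorem D_lin (a : V → ℝ) (v : V) (σ : V → Bool) : D v (lin a) σ = a v := by
  have h : D v (lin a) σ = ∑ u, D v (fun σ => a u * sp u σ) σ := D_sum v _ σ
  rw [h, Finset.sum_eq_single v]
  · have : D v (fun σ => a v * sp v σ) σ = a v * D v (sp v) σ := by
      unfold D
      ring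
    rw [this, D_sp_self, mul_one]
  · intro u _ hu
    have : D v (fun σ => a u * sp u σ) σ = a u * D v (sp u) σ := by
      unfold D
      ring
    rw [this, D_sp_ne hu, mul_zero]
  · intro h
    exact absurd (Finset.mem_univ v) h

theorem linPos_lin {a : V → ℝ} (ha : ∀ v, 0 ≤ a v) : LinPos (lin a) := by
  refine ⟨fun v => ?_, fun σ => ?_⟩
  · rw [D_lin]
    exact ha v
  · simp only [D_lin]
    rfl

theorem linPos_iff (f : (V → Bool) → ℝ) :
    LinPos f ↔ ∃ a : V → ℝ, (∀ v, 0 ≤ a v) ∧ f = lin a := by
  constructor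
  · rintro ⟨h1, h2⟩
    exact ⟨fun v => D v f (fun _ => true), h1, funext h2⟩
  · rintro ⟨a, ha, rfl⟩
    exact linPos_lin ha

theorem isClosed_linPos : IsClosed {f : (V → Bool) → ℝ | LinPos f} := by
  have hc : ∀ v : V, Continuous fun f : (V → Bool) → ℝ => D v f (fun _ => true) := by
    intro v
    have h1 : Continuous fun f : (V → Bool) → ℝ => f (Function.update (fun _ => true) v true) :=
      continuous_apply _
    have h2 : Continuous fun f : (V → Bool) → ℝ => f (Function.update (fun _ => true) v false) :=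
      continuous_apply _
    unfold D
    exact (h1.sub h2).div_const 2
  have h1 : IsClosed {f : (V → Bool) → ℝ | ∀ v, 0 ≤ D v f (fun _ => true)} := by
    rw [Set.ofPred_forall]
    exact isClosed_iInter fun v => isClosed_le continuous_const (hc v)
  have h2 : IsClosed {f : (V → Bool) → ℝ | ∀ σ, f σ = ∑ v, D v f (fun _ => true) * sp v σ} := by
    rw [Set.ofPred_forall]
    refine isClosed_iInter fun σ => isClosed_eq (continuous_apply _) ?_
    exact continuous_finsetSum _ fun v _ => (hc v).mul continuous_const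
  exact h1.inter h2

theorem ceSum_lin_fun {A : V → V → ℝ} (hA : Coup A) {c : V → V → ℝ}
    (hc : ∀ v σ, tau A v σ = ∑ u, c v u * sp u σ) (a : V → ℝ) :
    ceSum (W A) (lin a) = lin fun u => ((Fintype.card V : ℝ) - 1) * a u + ∑ v, a v * c v u := by
  funext σ
  have h1 : ∀ v, ce (W A) v (lin a) σ = lin a σ - (sp v σ - ∑ u, c v u * sp u σ) * a v := by
    intro v
    have h := sub_ce_W hA v (lin a) σ
    rw [D_lin, hc] at h
    linarith
  have h2 : ceSum (W A) (lin a) σ = ∑ v, (lin a σ - (sp v σ - ∑ u, c v u * sp u σ) * a v) :=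
    Finset.sum_congr rfl fun v _ => h1 v
  rw [h2, Finset.sum_sub_distrib, Finset.sum_const, Finset.card_univ, nsmul_eq_mul]
  have h3 : ∑ v, (sp v σ - ∑ u, c v u * sp u σ) * a v =
      lin a σ - ∑ u, (∑ v, a v * c v u) * sp u σ := by
    have h4 : ∑ u, (∑ v, a v * c v u) * sp u σ = ∑ v, (∑ u, c v u * sp u σ) * a v := by
      have : ∀ u ∈ (univ : Finset V), (∑ v, a v * c v u) * sp u σ =
          ∑ v, c v u * sp u σ * a v := by
        intro u _
        rw [Finset.sum_mul]
        exact Finset.sum_congr rfl fun v _ => by ring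
      rw [Finset.sum_congr rfl this, Finset.sum_comm]
      exact Finset.sum_congr rfl fun v _ => by rw [Finset.sum_mul]
    rw [h4]
    unfold lin
    rw [← Finset.sum_sub_distrib]
    refine Finset.sum_congr rfl fun v _ => ?_
    unfold sp
    ring
  rw [h3]
  have h5 : lin (fun u => ((Fintype.card V : ℝ) - 1) * a u + ∑ v, a v * c v u) σ =
      ((Fintype.card V : ℝ) - 1) * lin a σ + ∑ u, (∑ v, a v * c v u) * sp u σ := by
    unfold lin
    rw [Finset.mul_sum, ← Finset.sum_add_distrib]
    refine Finset.sum_congr rfl fun u _ => ?_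
    unfold sp
    ring
  rw [h5]
  ring

omit [DecidableEq V] in
theorem mag_eq_lin : (mag : (V → Bool) → ℝ) = lin fun _ => 1 := by
  funext σ
  unfold mag lin spin
  exact Finset.sum_congr rfl fun v _ => by rw [one_mul]

/-- With at most two neighbours per vertex the gap is attained by a linear function. -/
theorem linGap_le_gap [Nonempty V] {A : V → V → ℝ} (hA : Coup A)
    (h2 : ∀ v, ((univ : Finset V).filter fun u => A v u ≠ 0).card ≤ 2) :
    linGap (normalize (W A)) ≤ gap (normalize (W A)) := by
  have hn : (0 : ℝ) < Fintype.card V := by exact_mod_cast Fintype.card_pos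
  have hn1 : (1 : ℝ) ≤ Fintype.card V := by exact_mod_cast Fintype.card_pos
  choose c hc0 hc using fun v => tau_linear hA v (h2 v)
  obtain ⟨f, ρ, hρ0, hP, hone, heig, hρ⟩ := exists_eig_cone (W_pos A) (fun σ => W_neg σ)
    (W_fkg hA) LinPos isClosed_linPos
    (fun k f hk hf => by
      rw [linPos_iff] at hf ⊢
      obtain ⟨a, ha, rfl⟩ := hf
      refine ⟨fun v => k * a v, fun v => mul_nonneg hk (ha v), ?_⟩
      funext σ
      unfold lin
      rw [Finset.mul_sum]
      exact Finset.sum_congr rfl fun v _ => by ring)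
    (fun f hf => by
      rw [linPos_iff] at hf ⊢
      obtain ⟨a, ha, rfl⟩ := hf
      refine ⟨_, fun u => ?_, ceSum_lin_fun hA hc a⟩
      have : 0 ≤ ∑ v, a v * c v u :=
        Finset.sum_nonneg fun v _ => mul_nonneg (ha v) (hc0 v u)
      have := ha u
      nlinarith)
    (by
      rw [mag_eq_lin]
      exact linPos_lin fun _ => zero_le_one)
  have hlow : 2 * ((Fintype.card V : ℝ) - ρ) ≤
      2 * (Fintype.card V : ℝ) * gap (normalize (W A)) := by
    apply le_gap (W_pos A)
    intro g hg
    apply poincare_of_odd (W_pos A) (fun σ => W_neg σ) (W_fkg hA) _ hg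
    intro k hk
    have h1 := hρ k hk
    rw [dir_eq (W_pos A)]
    linarith
  obtain ⟨a, ha, rfl⟩ := (linPos_iff f).1 hP
  have hZ : 0 < ∑ σ, W A σ := sum_pos' (W_pos A)
  have hv : variance (normalize (W A)) (lin a) = 1 / ∑ τ, W A τ := by
    rw [variance_eq, mean_lin]
    simp only [sub_zero]
    rw [hone]
  have hd : dirichlet (normalize (W A)) (lin a) =
      (1 / (2 * (Fintype.card V : ℝ))) *
        (2 * ((Fintype.card V : ℝ) - ρ) / ∑ τ, W A τ) := by
    rw [dirichlet_eq (W_pos A), dir_eq (W_pos A), heig, ip_smul_right, hone]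
    ring
  have hvpos : 0 < variance (normalize (W A)) (lin a) := by
    rw [hv]
    exact one_div_pos.2 hZ
  have hmem : linGap (normalize (W A)) ≤
      dirichlet (normalize (W A)) (lin a) / variance (normalize (W A)) (lin a) := by
    unfold linGap
    refine csInf_le ⟨0, ?_⟩ ⟨a, hvpos, rfl⟩
    rintro r ⟨b, hb, rfl⟩
    refine div_nonneg ?_ hb.le
    rw [dirichlet_eq (W_pos A)]
    exact mul_nonneg (by positivity) (div_nonneg (dir_nonneg (W_pos A) _) hZ.le)
  refine hmem.trans ?_
  rw [hd, hv]
  have h3 : 1 / (2 * (Fintype.card V : ℝ)) * (2 * ((Fintype.card V : ℝ) - ρ) / ∑ τ, W A τ) /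
      (1 / ∑ τ, W A τ) = 2 * ((Fintype.card V : ℝ) - ρ) / (2 * (Fintype.card V : ℝ)) := by
    field_simp
  rw [h3, div_le_iff₀ (by positivity)]
  linarith

end Pool.Agent.Lib.MP_f82811_pr.LF
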